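import Pool.Agent.W_a4f561_P73.PDef

/-!
MP_a4f561_co, polylog (helper1's text, section 3 (d)): events of a phase, deadlines, `K_w(x,y) ≤ P_w(y)`, an event without
deadline `≤ w` is bad for `w`, at most `2 N + 2` events of one side are open at a time (helper31).
-/

set_option autoImplicit false

namespace Pool.Agent.W_a4f561_P31

open Pool.Agent.W_a4f561_h26
open Pool.Agent.W_a4f561_P73

variable {V : Type} {G : Bars V} {σ : St V} {D : Set V}

theorem ch_law31 (hb : G.bot ∈ σ.S) (ht : G.top ∈ σ.S) (hp : Ch G σ.pi) (ω : V × Bool → Bool) :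
    Ch G (law G σ ω) := by
  refine ⟨?_, ?_, fun v hv => ?_⟩
  · unfold law
    rw [if_pos (show G.bot ∈ σ.S ∪ σ.Dec from Or.inl hb)]
    exact hp.1
  · unfold law
    rw [if_pos (show G.top ∈ σ.S ∪ σ.Dec from Or.inl ht)]
    exact hp.2.1
  · unfold law
    split_ifs with h1 h3
    · exact hp.2.2 v hv
    · rcases zz_cases G hv with ⟨k, _⟩ | ⟨k, _⟩ <;> rw [k]
      · exact Or.inr rfl
      · exact Or.inl rfl
    · rcases zz_cases G hv with ⟨_, k, _⟩ | ⟨_, k, _⟩ <;> rw [k]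
      · exact Or.inl rfl
      · exact Or.inr rfl

theorem fin_law31 (h : ∀ ω, Ch G (law G σ ω)) (ω : V × Bool → Bool) : Fin' G σ (law G σ ω) :=
  ⟨h ω, fun v hv => by unfold law; rw [if_pos hv]⟩

/-- The phase of `z`: the part of the route in `D`. -/
def Bp (G : Bars V) (σ : St V) (D : Set V) (ω : V × Bool → Bool) (z : V) : Set V :=
  {u | PD G D (law G σ ω) z u}

/-- The phase up to `w`. -/
def Bw (G : Bars V) (σ : St V) (D : Set V) (ω : V × Bool → Bool) (z w : V) : Set V :=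
  {u | PD G D (law G σ ω) z u ∧ G.t u ≤ G.t w}

theorem pd_mono_t {π : V → V} {x u w : V} (h : PD G D π x w) (hu : Orb π x u) (ht : G.t u ≤ G.t w) :
    PD G D π x u := ⟨hu, fun v h1 h2 => h.2 v h1 (h2.trans ht)⟩

/-- A D-step before `w`: the rest of the phase is a path in `D` from `lo v` to `w`. -/
theorem DS.pd (hB : ∀ ω, Ch G (law G σ ω)) {ω : V × Bool → Bool} {z v w : V} (hv : DS G σ D ω z v)
    (hw : PD G D (law G σ ω) z w) (ht : G.t v < G.t w) : PD G D (law G σ ω) (G.lo v) w := by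
  have hc := hB ω
  have h1 : Orb (law G σ ω) v w := orb_comp hc hv.1.1 hw.1 ht.le
  have h2 : Orb (law G σ ω) (G.lo v) w := by
    obtain ⟨k, hk⟩ := h1
    cases k with
    | zero =>
      have h3 : v = w := hk
      rw [h3] at ht
      exact absurd ht (lt_irrefl _)
    | succ k =>
      rw [Function.iterate_succ_apply, hv.2.1] at hk
      exact ⟨k, hk⟩
  refine ⟨h2, fun u h3 h4 => hw.2 u ?_ h4⟩
  have h5 : Orb (law G σ ω) z (G.lo v) := by
    have h6 := orb_step hv.1.1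
    rwa [hv.2.1] at h6
  exact orb_trans h5 h3

/-- `E_w(x,y)` implies that the route of `y` reaches the phase up to `w` inside `D`. -/
theorem ew_lv (hB : ∀ ω, Ch G (law G σ ω)) {ω ω' : V × Bool → Bool} {z v w y : V} (hv : DS G σ D ω z v)
    (hw : PD G D (law G σ ω) z w) (ht : G.t v < G.t w) (h : Ew G σ D w (G.lo v) y ω') :
    LV G (D \ Bp G σ D ω z) (Bw G σ D ω z w) (law G σ ω') y := by
  classical
  have hp := DS.pd hB hv hw ht
  obtain ⟨u, h1, h2, h3, h4⟩ := h _ (fin_law31 hB ω) hp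
  have hzl : Orb (law G σ ω) z (G.lo v) := by
    have h6 := orb_step hv.1.1
    rwa [hv.2.1] at h6
  have huB : PD G D (law G σ ω) z u := pd_mono_t hw (orb_trans hzl h1) h2
  have hex : ∃ n, ∃ e, Orb (law G σ ω') y e ∧ PD G D (law G σ ω) z e ∧ G.t e = n := ⟨_, u, h3, huB, rfl⟩
  obtain ⟨e, k1, k2, k3⟩ := Nat.find_spec hex
  have hmin : ∀ v', Orb (law G σ ω') y v' → PD G D (law G σ ω) z v' → G.t e ≤ G.t v' := by
    intro v' l1 l2
    rw [k3]
    exact Nat.find_min' hex ⟨v', l1, l2, rfl⟩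
  have heu : G.t e ≤ G.t u := hmin u h3 huB
  refine ⟨e, ⟨k2, heu.trans h2⟩, fun h5 => h5.2 k2, k1, fun v' l1 l2 => ⟨h4 v' l1 (l2.trans_le heu), fun l3 => ?_⟩⟩
  have := hmin v' l1 l3
  omega

section pr

variable [Fintype V] [DecidableEq V]

theorem pr_mono31 {A B : (V × Bool → Bool) → Prop} (h : ∀ ω, A ω → B ω) :
    pr (fun _ => none) A ≤ pr (fun _ => none) B := by
  classical
  unfold pr
  apply div_le_div_of_nonneg_right _ (by positivity)
  exact_mod_cast Finset.card_le_card (fun ω hω => by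
    rw [Finset.mem_filter] at hω ⊢
    exact ⟨hω.1, h _ hω.2⟩)

/-- `P_w(y)`: the probability that the route of `y` leaves `D - B` in `B` up to `w`. -/
noncomputable def Pw (G : Bars V) (σ : St V) (D : Set V) (ω : V × Bool → Bool) (z w y : V) : ℝ :=
  pr (fun _ => none) (fun ω' => LV G (D \ Bp G σ D ω z) (Bw G σ D ω z w) (law G σ ω') y)

theorem kw_le (hB : ∀ ω, Ch G (law G σ ω)) {ω : V × Bool → Bool} {z v w : V} (y : V) (hv : DS G σ D ω z v)
    (hw : PD G D (law G σ ω) z w) (ht : G.t v < G.t w) : Kw G σ D w (G.lo v) y ≤ Pw G σ D ω z w y :=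
  pr_mono31 fun _ h => ew_lv hB hv hw ht h

theorem pw_mono {ω : V × Bool → Bool} {z w w' : V} (y : V) (ht : G.t w ≤ G.t w') :
    Pw G σ D ω z w y ≤ Pw G σ D ω z w' y :=
  pr_mono31 fun _ ⟨e, h1, h2⟩ => ⟨e, ⟨h1.1, h1.2.trans ht⟩, h2⟩

/-- The event of kind `k` at `v` (`true`: beta). -/
def EvK (G : Bars V) (σ : St V) (D : Set V) (ω : V × Bool → Bool) (z : V) (k : Bool) (v : V) : Prop :=
  DS G σ D ω z v ∧ (if k = true then v ∉ σ.Dec ∧ G.zz v = G.lo v
    else (∀ v', DS G σ D ω z v' → G.t v' < G.t v → G.flh v' ≠ G.flh v) ∧ ¬ fb G σ v)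

/-- The heads of the event of kind `k` at `v`. -/
def HdK (G : Bars V) (k : Bool) (v h : V) : Prop := if k = true then Sh G v h else h = G.flh v

/-- The event has a deadline `≤ w`. -/
def Met (G : Bars V) (σ : St V) (D : Set V) (δ : ℝ) (ω : V × Bool → Bool) (z : V) (k : Bool) (v w : V) : Prop :=
  ∀ h, HdK G k v h → δ ≤ Pw G σ D ω z w h

theorem Met.mono {δ : ℝ} {ω : V × Bool → Bool} {z v w w' : V} {k : Bool} (h : Met G σ D δ ω z k v w)
    (ht : G.t w ≤ G.t w') : Met G σ D δ ω z k v w' := fun y hy => (h y hy).trans (pw_mono y ht)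

/-- An event which is not met at `w` is bad for `w`. -/
theorem bad_of_not_met (hB : ∀ ω, Ch G (law G σ ω)) {δ : ℝ} {ω : V × Bool → Bool} {z v w : V} {k : Bool}
    (he : EvK G σ D ω z k v) (hw : PD G D (law G σ ω) z w) (ht : G.t v < G.t w)
    (hn : ¬ Met G σ D δ ω z k v w) : bad G σ D δ ω z w v := by
  unfold Met at hn
  push Not at hn
  obtain ⟨y, h1, h2⟩ := hn
  have h3 : Kw G σ D w (G.lo v) y < δ := (kw_le hB y he.1 hw ht).trans_lt h2
  obtain ⟨hds, he'⟩ := he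
  cases k with
  | true =>
    rw [if_pos rfl] at he'
    unfold HdK at h1
    rw [if_pos rfl] at h1
    exact Or.inl ⟨hds, he'.1, he'.2, y, h1, h3⟩
  | false =>
    rw [if_neg (by decide)] at he'
    unfold HdK at h1
    rw [if_neg (by decide)] at h1
    rw [h1] at h3
    exact Or.inr ⟨hds, he'.1, he'.2, h3⟩

/-- At most `N + 1` D-steps before or at `w` carry an event which is not met at `w`. -/
theorem steps_le (hB : ∀ ω, Ch G (law G σ ω)) {δ : ℝ} {ω : V × Bool → Bool} {z w : V} {N : ℕ}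
    (hw : PD G D (law G σ ω) z w) (hN : bcnt G σ D δ ω z w ≤ N) :
    Set.ncard {v | G.t v ≤ G.t w ∧ ∃ k, EvK G σ D ω z k v ∧ (G.t v < G.t w → ¬ Met G σ D δ ω z k v w)} ≤ N + 1 := by
  have h1 : {v | G.t v ≤ G.t w ∧ ∃ k, EvK G σ D ω z k v ∧ (G.t v < G.t w → ¬ Met G σ D δ ω z k v w)} ⊆
      insert w {v | G.t v < G.t w ∧ bad G σ D δ ω z w v} := by
    rintro v ⟨h2, k, h3, h4⟩
    rcases h2.eq_or_lt with h5 | h5
    · left
      exact G.t_inj h5
    · right
      exact ⟨h5, bad_of_not_met hB h3 hw h5 (h4 h5)⟩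
  calc _ ≤ Set.ncard (insert w {v | G.t v < G.t w ∧ bad G σ D δ ω z w v}) := Set.ncard_le_ncard h1 (Set.toFinite _)
    _ ≤ Set.ncard {v | G.t v < G.t w ∧ bad G σ D δ ω z w v} + 1 := Set.ncard_insert_le _ _
    _ ≤ N + 1 := by
      unfold bcnt at hN
      omega

/-- OPEN: at most `2 N + 2` events of one side have `t v < s` and are not met before the time `s`. -/
theorem open_le (hB : ∀ ω, Ch G (law G σ ω)) {δ : ℝ} {ω : V × Bool → Bool} {z : V} {N s : ℕ}
    (hN : ∀ w, PD G D (law G σ ω) z w → bcnt G σ D δ ω z w ≤ N)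
    (E : Finset (Bool × V)) (hE : ∀ e ∈ E, EvK G σ D ω z e.1 e.2 ∧ G.t e.2 < s ∧
      ∀ w, PD G D (law G σ ω) z w → G.t e.2 < G.t w → G.t w ≤ s → ¬ Met G σ D δ ω z e.1 e.2 w) :
    E.card ≤ 2 * N + 2 := by
  classical
  rcases E.eq_empty_or_nonempty with h0 | ⟨e0, he0⟩
  · rw [h0]
    simp
  -- the last vertex of the phase with `t ≤ s`
  have hne : (Finset.univ.filter (fun w : V => PD G D (law G σ ω) z w ∧ G.t w ≤ s)).Nonempty := by
    obtain ⟨h1, h2, _⟩ := hE e0 he0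
    exact ⟨e0.2, by rw [Finset.mem_filter]; exact ⟨Finset.mem_univ _, h1.1.1, h2.le⟩⟩
  obtain ⟨w, hw, hmax⟩ := Finset.exists_max_image _ G.t hne
  rw [Finset.mem_filter] at hw
  obtain ⟨-, hw1, hw2⟩ := hw
  have hsub : E ⊆ (Finset.univ : Finset Bool) ×ˢ (Set.toFinite {v | G.t v ≤ G.t w ∧ ∃ k, EvK G σ D ω z k v ∧
      (G.t v < G.t w → ¬ Met G σ D δ ω z k v w)}).toFinset := by
    intro e he
    obtain ⟨h1, h2, h3⟩ := hE e he
    rw [Finset.mem_product, Set.Finite.mem_toFinset]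
    refine ⟨Finset.mem_univ _, hmax e.2 ?_, e.1, h1, fun h4 => h3 w hw1 h4 hw2⟩
    rw [Finset.mem_filter]
    exact ⟨Finset.mem_univ _, h1.1.1, h2.le⟩
  have h5 := steps_le (δ := δ) hB hw1 (hN w hw1)
  rw [Set.ncard_eq_toFinset_card _ (Set.toFinite _)] at h5
  have h6 := Finset.card_le_card hsub
  rw [Finset.card_product] at h6
  simp only [Finset.card_univ, Fintype.card_bool] at h6
  omega

end pr

end Pool.Agent.W_a4f561_P31
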