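import Pool.Agent.W_a4f561_P31.HeadsDef
import Pool.Agent.W_a4f561_P98.Bas98

/-!
MP_a4f561_co, polylog, skeleton (4b): the route of a vertex of a label to the phase (gluing of the routes of different
coins along earlier labels) (helper31).
-/

set_option autoImplicit false

namespace Pool.Agent.W_a4f561_P31

open Pool.Agent.W_a4f561_h26
open Pool.Agent.W_a4f561_P73
open Pool.Agent.W_a4f561_h1 (WInv Fam)

variable {V : Type} [Fintype V] [DecidableEq V] {G : Bars V}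

/-- (4) the route of a vertex of a label to the phase (gluing of the routes of different coins). -/
theorem fam_path {σ1 : St V} {c : V} (hI : WInv G σ1 c) {D1 B : Set V} {κ : ℝ} (hκ : 0 < κ) {M q : ℕ}
    {F : ℕ → Set V} {s e : ℕ → ℕ} (hD1 : ∀ v ∈ D1, v ∉ σ1.S) (hF : Fam G σ1 D1 B κ M q F s e) {l : ℕ} (hl : l < q)
    {u : V} (hu : u ∈ F l) :
    ∃ π, Fin' G σ1 π ∧ ∃ w ∈ B, G.t w ≤ e l ∧ Orb π u w ∧
      ∀ v, Orb π u v → G.t v < G.t w → ∃ l', l' ≤ l ∧ v ∈ F l' := by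
  induction l using Nat.strong_induction_on generalizing u with
  | _ l ih =>
    have hch : ∀ ω, Ch G (law G σ1 ω) := fun ω => ch_law31 hI.bot_mem hI.top_mem hI.ch ω
    obtain ⟨ω, x, hx, hxF, hox, hb⟩ := pr_pos31 (hκ.trans_le (hF.suc l hl u hu))
    rcases hx with ⟨h1, h2⟩ | ⟨l', h1, h2⟩
    · exact ⟨law G σ1 ω, fin_law31 hch ω, x, h1, h2, hox, fun v h3 h4 => ⟨l, le_rfl, hb v h3 h4⟩⟩
    · obtain ⟨π, hπ, w, hw, hwe, how, hwb⟩ := ih l' h1 (h1.trans hl) h2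
      have hxS : x ∉ σ1.S := hD1 x (hF.sub l' (h1.trans hl) h2)
      have hxi : G.inn x := ⟨fun e => hxS (e ▸ hI.bot_mem), fun e => hxS (e ▸ hI.top_mem)⟩
      have hxN : G.t x < G.N := G.t_in x hxi.1 hxi.2
      have hfl := fin_law31 hch ω
      obtain ⟨k1, k2, k3⟩ := W_a4f561_P98.orb_spl hfl hπ hox hxN
      refine ⟨_, W_a4f561_P98.fin_spl hfl hπ, w, hw, hwe.trans (hF.mono l' l h1.le hl), k2 w how, fun v h3 h4 => ?_⟩
      rcases k3 v h3 with ⟨h5, h6⟩ | h5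
      · exact ⟨l, le_rfl, hb v h6 h5⟩
      · obtain ⟨l'', h6, h7⟩ := hwb v h5 h4
        exact ⟨l'', h6.trans h1.le, h7⟩

end Pool.Agent.W_a4f561_P31
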