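import Pool.Agent.W_a4f561_P31.HeadsRel

/-!
MP_a4f561_co, polylog (helper1's text, section 3 (d), HEADS GET IN) on `W_a4f561_h1.Def`: the inequality for the heads of
an event, and `head_in`: a head of a `Dl`-event is on the phase up to the deadline, in an earlier label or in the new
label (helper31).
-/

set_option autoImplicit false

namespace Pool.Agent.W_a4f561_P31

open Pool.Agent.W_a4f561_h26
open Pool.Agent.W_a4f561_P73
open Pool.Agent.W_a4f561_P25 (Tc Ar ArD Area)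
open Pool.Agent.W_a4f561_h33 (RelH)
open Pool.Agent.W_a4f561_h1 (IsRc WInv Hd Exi TD Pk Ob Dl Dr1)
open Pool.Agent.W_a4f561_P97 (C0 nlC Mx mem_mx)

variable {V : Type}

/-- `σ1` with the old declared vertices. -/
def sm (σ σ1 : St V) : St V := { σ1 with Dec := σ.Dec }

theorem newdec_side {G : Bars V} {σ σ1 : St V} {z u : V} {tl : ℕ} {RD : Set (Rec V)} {R : Rec V}
    (hch : Ch G σ.pi) (hch1 : Ch G σ1.pi) (hpi : ∀ v ∈ σ.S, σ1.pi v = σ.pi v) (hrec : R ∈ RD → IsRc G σ R)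
    (hnew : R ∉ RD → R.q = z ∧ Tc G σ1.pi z tl R.y R.a ∧ Tc G σ1.pi z tl R.y R.c)
    (hd : DecBy G σ1 R u) (hu1 : u ∉ σ.S) (hu2 : u ∉ σ.Dec) (hO : ¬ Orb σ1.pi z u) (hin : G.inn u) :
    ∃ a c, Ar G σ1.pi z tl (G.up u) a c u ∧ σ1.pi u = G.lo u := by
  obtain ⟨h1, h2, h3, h4, h5⟩ := hd
  by_cases hR : R ∈ RD
  · exfalso
    have hr := hrec hR
    have e : host G σ1.pi R.q (G.t u) = host G σ.pi R.q (G.t u) := by
      refine host_congr25 hch hch1 (h2.le.trans hr.cN) fun v hv ht => hpi v ?_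
      have h6 := hr.hst (G.t v) (ht.le.trans h2.le)
      rw [host_t hch hv (W_a4f561_B31.inn_of_t G (by have := hr.cN; omega))] at h6
      exact h6
    rw [e] at h3
    rcases (hr.dec u hin h1.le h2 h3 h4).1 with h6 | h6
    · exact hu1 h6
    · exact hu2 h6
  · obtain ⟨h6, h7, h8⟩ := hnew hR
    refine ⟨R.a, R.c, ⟨hO, by rw [h4]; exact h7, by rw [h4]; exact h8, G.t u, h1.le, h2.le, ⟨G.bt u, le_rfl⟩, ?_,
      r_up G hin⟩, h5⟩
    rw [← h6]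
    exact h3

section wrap

set_option linter.unusedSectionVars false

variable [Fintype V] [DecidableEq V] {G : Bars V} {σ σ1 : St V} {D E : Set V} {δ : ℝ} {N : ℕ} {ω : V × Bool → Bool}
  {z e vl : V}

theorem newDec_of (hW : WInv G σ z) (hR : Dr1 G σ D ω z e vl σ1) : NewDec G (sm σ σ1) σ1 z (G.t vl) := by
  intro u hu1 _ hu3
  have hu3' : u ∉ σ.Dec := hu3
  obtain ⟨h1, h2⟩ := hR.decN u hu1 hu3'
  have hin : G.inn u := ⟨fun e => h1 (e ▸ hR.inv.bot_mem), fun e => h1 (e ▸ hR.inv.top_mem)⟩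
  have hS : u ∉ σ.S := fun h => h1 ((hR.S u).2 (Or.inl h))
  have hO : ¬ Orb σ1.pi z u := W_a4f561_P25.Area.notO h2
  have hpi : ∀ v ∈ σ.S, σ1.pi v = σ.pi v := fun v hv => hR.piO v (Or.inl hv)
  rcases hR.inv.decl u hu1 h1 with ⟨R, hR1, hd⟩ | ⟨R, hR1, hd⟩
  · exact Or.inl (newdec_side (RD := σ.RD) hW.ch hR.inv.ch hpi (hW.recD R) (fun h => hR.newD R hR1 h) hd hS hu3' hO hin)
  · right
    obtain ⟨a, c, h3, h4⟩ := newdec_side (G := G.mir) (σ := σ) (σ1 := σ1) (RD := σ.RU) (ch_mir.2 hW.ch)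
      (ch_mir.2 hR.inv.ch) hpi (hW.recU R) (fun h => hR.newU R hR1 h) hd hS hu3' hO ((inn_mir G).2 hin)
    rw [mir_lo'] at h4
    exact ⟨a, c, h3, h4⟩

theorem bp_orb (hW : WInv G σ z) (hR : Dr1 G σ D ω z e vl σ1) {u : V} (hu : PD G D (law G σ ω) z u) :
    Orb σ1.pi z u := by
  have hc := ch_law31 hW.bot_mem hW.top_mem hW.ch ω
  refine (orb_agree hc hu.1 fun u' h1 h2 => ?_).1
  exact hR.piB u' (pd_mono_t hu h1 h2.le)

theorem bp_of (hW : WInv G σ z) (hR : Dr1 G σ D ω z e vl σ1) {u w : V} (hw : PD G D (law G σ ω) z w)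
    (hu : Orb σ1.pi z u) (ht : G.t u ≤ G.t w) : PD G D (law G σ ω) z u := by
  have hc := ch_law31 hW.bot_mem hW.top_mem hW.ch ω
  rcases ht.eq_or_lt with h1 | h1
  · rw [G.t_inj h1]
    exact hw
  · have h2 := (orb_agree (ρ1 := σ1.pi) hc hw.1 fun u' h1 h2 => hR.piB u' (pd_mono_t hw h1 h2.le)).2 u hu h1 hR.inv.ch
    exact pd_mono_t hw h2 h1.le

theorem bp_t (hW : WInv G σ z) (hT : TD G σ D E δ N ω z e) (hR : Dr1 G σ D ω z e vl σ1) {w : V}
    (hw : PD G D (law G σ ω) z w) : G.t w ≤ G.t vl := by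
  have hc := ch_law31 hW.bot_mem hW.top_mem hW.ch ω
  by_contra h1
  rw [not_le] at h1
  have hvl : PD G D (law G σ ω) z vl := hR.vlB
  have h2 : Orb (law G σ ω) vl w := orb_comp hc hvl.1 hw.1 h1.le
  rcases orb_cases31 h2 with h3 | h3
  · rw [h3] at h1
    exact lt_irrefl _ h1
  · rw [hR.vle] at h3
    have h4 : Orb (law G σ ω) z e := hT.exi.1
    exact hT.exi.2.1 (hw.2 e h4 (orb_t hc h3))

theorem law_sm (hR : Dr1 G σ D ω z e vl σ1) (ω' : V × Bool → Bool) {u : V} (hu : ¬ PD G D (law G σ ω) z u) :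
    law G (sm σ σ1) ω' u = law G σ ω' u := by
  by_cases h1 : u ∈ σ.S ∪ σ.Dec
  · have h2 : u ∈ (sm σ σ1).S ∪ (sm σ σ1).Dec := by
      rcases h1 with h1 | h1
      · exact Or.inl ((hR.S u).2 (Or.inl h1))
      · exact Or.inr h1
    unfold law
    rw [if_pos h1, if_pos h2]
    exact hR.piO u h1
  · have h2 : u ∉ (sm σ σ1).S ∪ (sm σ σ1).Dec := by
      rintro (h2 | h2)
      · rcases (hR.S u).1 h2 with h3 | h3
        · exact h1 (Or.inl h3)
        · exact hu h3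
      · exact h1 (Or.inr h2)
    unfold law
    rw [if_neg h1, if_neg h2]

theorem hd_iff {k : Bool} {v y : V} : Hd G k v y ↔ HdK G k v y := by
  unfold Hd HdK
  cases k <;> simp

theorem ob_iff {k : Bool} {v : V} : Ob G σ D ω z k v ↔ EvK G σ D ω z k v := by
  unfold Ob EvK
  cases k <;> simp

theorem pk_eq (w y : V) : Pk G σ D (W_a4f561_h1.Bp G σ D ω z) (G.t w) y = Pw G σ D ω z w y := rfl

theorem inn_of_D (hW : WInv G σ z) (hD : ∀ v ∈ D, v ∉ σ.S) {v : V} (hv : v ∈ D) : G.inn v :=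
  ⟨fun e => hD v hv (e ▸ hW.bot_mem), fun e => hD v hv (e ▸ hW.top_mem)⟩

/-- Data of a head: alive and above the phase at a time after `t v`. -/
theorem head_data (hW : WInv G σ z) (hD : ∀ v ∈ D, v ∉ σ.S) (hR : Dr1 G σ D ω z e vl σ1) {k : Bool} {v y : V}
    (hob : Ob G σ D ω z k v) (hy : Hd G k v y) :
    ∃ τ, G.t v < τ ∧ τ ≤ G.t (G.lo v) ∧ G.al y τ ∧ host G σ1.pi z τ = G.lo v ∧ G.r (host G σ1.pi z τ) < G.r y ∧
      G.t v < G.t y := by
  have hv : DS G σ D ω z v := hob.1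
  refine head_above hR.inv.ch (inn_of_D hW hD (hv.1.2 v hv.1.1 le_rfl)) (inn_of_D hW hD hv.2.2) (bp_orb hW hR hv.1) ?_
    (hd_iff.1 hy)
  rw [hR.piB v hv.1]
  exact hv.2.1

/-- HEADS GET IN on `Def`: the inequality. -/
theorem heads_def (hW : WInv G σ z) (hD : ∀ v ∈ D, v ∉ σ.S) (hR : Dr1 G σ D ω z e vl σ1) (hrel : RelH G (sm σ σ1) σ1 z (G.t vl)) {D1 L : Set V} {k : Bool} {v w y : V}
    (hob : Ob G σ D ω z k v) (hw : w ∈ W_a4f561_h1.Bp G σ D ω z) (hy : Hd G k v y)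
    (hD1 : ∀ u, u ∉ σ1.S → G.t v < G.t u → G.t u < G.t w → (u ∈ D ∨ Area G σ1.pi z (G.t vl) u) →
      G.r (host G σ1.pi z (G.t u)) < G.r u → u ∈ D1 ∨ u ∈ L)
    (hD1S : ∀ u ∈ D1, u ∉ σ1.S) (hD1L : ∀ u ∈ D1, u ∉ L) :
    Pk G σ D (W_a4f561_h1.Bp G σ D ω z) (G.t w) y ≤
      pr (fun _ => none) (fun ω' => LV G (C0 G σ1 z D1 (G.t v) (G.t w))
        ({u | u ∈ W_a4f561_h1.Bp G σ D ω z ∧ G.t u ≤ G.t w} ∪ L) (law G σ1 ω') y) := by
  have hw' : PD G D (law G σ ω) z w := hw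
  have hset : ({u | u ∈ W_a4f561_h1.Bp G σ D ω z ∧ G.t u ≤ G.t w} : Set V) =
      {u | Orb (sm σ σ1).pi z u ∧ G.t u ≤ G.t w} := by
    ext u
    constructor
    · rintro ⟨h1, h2⟩
      exact ⟨bp_orb hW hR h1, h2⟩
    · rintro ⟨h1, h2⟩
      exact ⟨bp_of hW hR hw' h1 h2, h2⟩
  have hbS : ∀ u, Orb (sm σ σ1).pi z u → G.t u ≤ G.t w → u ∈ (sm σ σ1).S := fun u h1 h2 =>
    (hR.S u).2 (Or.inr (bp_of hW hR hw' h1 h2))
  have hwi : G.inn w := inn_of_D hW hD (hw'.2 w hw'.1 le_rfl)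
  obtain ⟨τ, t1, t2, t3, t4, t5, t6⟩ := head_data hW hD hR hob hy
  rw [hset, pk_eq]
  refine heads_pr (σ0 := σ) (σ1 := sm σ σ1) (σ2 := σ1) (s := G.t v) (A := {u | Area G σ1.pi z (G.t vl) u})
    (fun ω => ch_law31 hW.bot_mem hW.top_mem hW.ch ω)
    (fun ω => ch_law31 (σ := sm σ σ1) hR.inv.bot_mem hR.inv.top_mem hR.inv.ch ω)
    (fun ω => ch_law31 hR.inv.bot_mem hR.inv.top_mem hR.inv.ch ω) hR.inv.ch hbS
    (fun u h1 h2 => hR.noS u h2 h1) (fun u h1 _ => bp_orb hW hR h1) (G.t_in w hwi.1 hwi.2).le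
    (fun ω' v' h1 h2 h3 h4 h5 => ?_) (fun u _ _ h3 ω' => law_sm hR ω' h3) (fun u h1 _ h3 h4 => ?_)
    (fun u h1 h2 h3 h4 h5 => ?_) (fun u hu => ⟨hD1S u hu.1, hD1L u hu.1⟩) t6 t3
    (((G.bt z).trans (orb_t hR.inv.ch (bp_orb hW hR hob.1.1))).trans t1.le) t5
  · obtain ⟨n, hn⟩ := h2
    exact heads_rel hrel hR.inv.ch (newDec_of hW hR) ω' h3 (hbS v' h3 h4) n y hn h1 h5
  · rcases (hR.S u).1 h4 with h5 | h5
    · exact hD u h1 h5
    · exact h3 h5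
  · rcases hD1 u h1 h2 h3 h4 h5 with h6 | h6
    · exact Or.inl ⟨h6, h2, G.t u, h2, h3.le, ⟨G.bt u, le_rfl⟩, h5⟩
    · exact Or.inr h6

theorem card_or31 {Ω : Type} [Fintype Ω] (P Q R : Ω → Prop) {_ : DecidablePred P} {_ : DecidablePred Q} {_ : DecidablePred R}
    (h : ∀ ω, P ω → Q ω ∨ R ω) :
    (Finset.univ.filter P).card ≤ (Finset.univ.filter Q).card + (Finset.univ.filter R).card := by
  classical
  refine le_trans (Finset.card_le_card fun ω hω => ?_) (Finset.card_union_le _ _)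
  rw [Finset.mem_filter] at hω
  rw [Finset.mem_union, Finset.mem_filter, Finset.mem_filter]
  exact (h ω hω.2).imp (fun h => ⟨hω.1, h⟩) (fun h => ⟨hω.1, h⟩)

theorem pr_or31 (A B : (V × Bool → Bool) → Prop) :
    pr (fun _ => none) (fun ω => A ω ∨ B ω) ≤ pr (fun _ => none) A + pr (fun _ => none) B := by
  unfold pr
  rw [← add_div]
  apply div_le_div_of_nonneg_right _ (by positivity)
  rw [← Nat.cast_add]
  apply Nat.cast_le.2
  exact card_or31 _ _ _ fun ω h => h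

theorem pr_pos31 {A : (V × Bool → Bool) → Prop} (h : 0 < pr (fun _ => none) A) : ∃ ω, A ω := by
  classical
  by_contra hc
  push Not at hc
  unfold pr at h
  rw [Finset.filter_false_of_mem (fun ω _ => hc _)] at h
  simp at h

/-- HEADS GET IN on `Def`: a head of a `Dl`-event is on the phase up to the deadline, in an earlier label, or in the new
label. -/
theorem head_in (hW : WInv G σ z) (hD : ∀ v ∈ D, v ∉ σ.S) (hR : Dr1 G σ D ω z e vl σ1) (hrel : RelH G (sm σ σ1) σ1 z (G.t vl)) {D1 L : Set V} {k : Bool} {v w y : V} {κ : ℝ}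
    (hdl : Dl G σ D δ ω z k v w) (hy : Hd G k v y) (hκ : 0 < κ) (hδ : 0 < δ) (hκδ : (Fintype.card V : ℝ) * κ ≤ δ)
    (hD1 : ∀ u, u ∉ σ1.S → G.t v < G.t u → G.t u < G.t w → (u ∈ D ∨ Area G σ1.pi z (G.t vl) u) →
      G.r (host G σ1.pi z (G.t u)) < G.r u → u ∈ D1 ∨ u ∈ L)
    (hD1S : ∀ u ∈ D1, u ∉ σ1.S) (hD1L : ∀ u ∈ D1, u ∉ L) :
    (y ∈ W_a4f561_h1.Bp G σ D ω z ∧ G.t y ≤ G.t w) ∨ y ∈ L ∨
      y ∈ nlC G σ1 (fun ω' => law G σ1 ω') (pr (fun _ => none)) κ z D1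
        {u | u ∈ W_a4f561_h1.Bp G σ D ω z ∧ G.t u ≤ G.t w} L (G.t v) (G.t w) := by
  have hob := hdl.1
  have hw := hdl.2.1
  have hp : δ ≤ Pk G σ D (W_a4f561_h1.Bp G σ D ω z) (G.t w) y := hdl.2.2.2.1 y hy
  have hw' : PD G D (law G σ ω) z w := hw
  have hwi : G.inn w := inn_of_D hW hD (hw'.2 w hw'.1 le_rfl)
  obtain ⟨τ, t1, t2, t3, t4, t5, t6⟩ := head_data hW hD hR hob hy
  obtain ⟨ω', e', he', heD, hoe, hb⟩ := pr_pos31 (hδ.trans_le hp)
  have hc' := ch_law31 hW.bot_mem hW.top_mem hW.ch ω'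
  by_cases hyB : y ∈ W_a4f561_h1.Bp G σ D ω z
  · left
    refine ⟨hyB, ?_⟩
    by_contra hcon
    rw [not_le] at hcon
    have h1 : G.t y < G.t e' := by
      refine lt_of_le_of_ne (orb_t hc' hoe) fun h2 => ?_
      rw [h2] at hcon
      exact absurd he'.2 (not_le.2 hcon)
    exact (hb y (orb_refl _ _) h1).2 hyB
  have hye : G.t y < G.t e' := lt_of_le_of_ne (orb_t hc' hoe) fun h2 => hyB (by rw [G.t_inj h2]; exact he'.1)
  have hyD : y ∈ D := (hb y (orb_refl _ _) hye).1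
  have hyS : y ∉ σ1.S := by
    intro h
    rcases (hR.S y).1 h with h5 | h5
    · exact hD y hyD h5
    · exact hyB h5
  have hyw : G.t y < G.t w := hye.trans_le he'.2
  have hab : G.r (host G σ1.pi z (G.t y)) < G.r y := by
    refine above_stay hR.inv.ch hR.inv.ch (((G.bt z).trans (orb_t hR.inv.ch (bp_orb hW hR hob.1.1))).trans t1.le) t3 t5
      (orb_refl _ _) (hyw.le.trans (G.t_in w hwi.1 hwi.2).le) (fun u' l1 l2 l3 => ?_)
    have l4 : G.t u' = G.t y := le_antisymm l2 (orb_t hR.inv.ch l1)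
    rw [G.t_inj l4] at l3
    exact hyB (bp_of hW hR hw' l3 hyw.le)
  rcases hD1 y hyS t6 hyw (Or.inl hyD) hab with h1 | h1
  · right; right
    refine mem_mx (fun ω => ch_law31 hR.inv.bot_mem hR.inv.top_mem hR.inv.ch ω) (fun A B h => pr_mono31 h) pr_or31 hκ
      ?_ ⟨h1, t6, G.t y, t6, hyw.le, ⟨G.bt y, le_rfl⟩, hab⟩ (hκδ.trans (hp.trans ?_))
    · rintro u (h2 | h2) h3
      · exact hD1S u h3.1 ((hR.S u).2 (Or.inr h2.1))
      · exact hD1L u h3.1 h2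
    · exact heads_def hW hD hR hrel hob hw hy hD1 hD1S hD1L
  · exact Or.inr (Or.inl h1)

end wrap

end Pool.Agent.W_a4f561_P31
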