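import Pool.Agent.W_a4f561_P31.Heads

/-!
MP_a4f561_co, polylog (helper1's text, section 3 (d), HEADS GET IN): for a head `y` of an event the new law leaves the
universe `W` of the new label in its target (`B` up to the deadline or an earlier label) with probability `≥ P_w(y)`.
-/

set_option autoImplicit false

namespace Pool.Agent.W_a4f561_P31

open Pool.Agent.W_a4f561_h26
open Pool.Agent.W_a4f561_P73

variable {V : Type} {G : Bars V}

/-- Leaving: a route with a vertex in `E` all of whose earlier vertices are in `W` or in `E` leaves `W` in `E`. -/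
theorem lv_of_meet {ρ : V → V} {W E : Set V} {y v : V} (hd : ∀ u ∈ E, u ∉ W) (hy : Orb ρ y v) (hv : v ∈ E)
    (h : ∀ u, Orb ρ y u → G.t u < G.t v → u ∈ W ∨ u ∈ E) : LV G W E ρ y := by
  classical
  have hex : ∃ n, ∃ e, Orb ρ y e ∧ e ∈ E ∧ G.t e = n := ⟨_, v, hy, hv, rfl⟩
  obtain ⟨e, k1, k2, k3⟩ := Nat.find_spec hex
  have hmin : ∀ u, Orb ρ y u → u ∈ E → G.t e ≤ G.t u := by
    intro u l1 l2
    rw [k3]
    exact Nat.find_min' hex ⟨u, l1, l2, rfl⟩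
  refine ⟨e, k2, hd e k2, k1, fun u l1 l2 => ?_⟩
  rcases h u l1 (l2.trans_le (hmin v hy hv)) with h1 | h1
  · exact h1
  · have := hmin u l1 h1
    omega

/-- Agreement of two choice functions on the vertices before `v`. -/
theorem orb_agree {ρ ρ1 : V → V} (hρ : Ch G ρ) {y v : V} (hv : Orb ρ y v)
    (h : ∀ u, Orb ρ y u → G.t u < G.t v → ρ1 u = ρ u) :
    Orb ρ1 y v ∧ ∀ u, Orb ρ1 y u → G.t u < G.t v → Ch G ρ1 → Orb ρ y u := by
  classical
  have hex : ∃ k, ρ^[k] y = v := hv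
  have hk := Nat.find_spec hex
  have hlt : ∀ j, j < Nat.find hex → G.t (ρ^[j] y) < G.t v := by
    intro j hj
    have h1 : Orb ρ (ρ^[j] y) v := by
      refine ⟨Nat.find hex - j, ?_⟩
      rw [← Function.iterate_add_apply, Nat.sub_add_cancel hj.le]
      exact hk
    exact lt_of_le_of_ne (orb_t hρ h1) fun h2 => Nat.find_min hex hj (G.t_inj h2)
  have hag : ∀ j, j ≤ Nat.find hex → ρ1^[j] y = ρ^[j] y := by
    intro j
    induction j with
    | zero => intro _; rfl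
    | succ j ih =>
      intro hj
      rw [Function.iterate_succ_apply', Function.iterate_succ_apply', ih (by omega)]
      exact h _ ⟨j, rfl⟩ (hlt j (by omega))
  refine ⟨⟨_, (hag _ le_rfl).trans hk⟩, ?_⟩
  rintro u ⟨j, rfl⟩ hu hρ1
  rcases Nat.lt_or_ge j (Nat.find hex) with h4 | h4
  · rw [hag j h4.le]
    exact ⟨j, rfl⟩
  · exfalso
    have hk2 : ρ1^[Nat.find hex] y = v := (hag _ le_rfl).trans hk
    have h5 : Orb ρ1 v (ρ1^[j] y) := by
      refine ⟨j - Nat.find hex, ?_⟩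
      calc ρ1^[j - Nat.find hex] v = ρ1^[j - Nat.find hex] (ρ1^[Nat.find hex] y) := by rw [hk2]
        _ = ρ1^[j] y := by rw [← Function.iterate_add_apply, Nat.sub_add_cancel h4]
    have h6 := orb_t hρ1 h5
    omega

/-- A route which is above the phase stays above it till it meets it. -/
theorem above_stay {π ρ : V → V} (hπ : Ch G π) (hρ : Ch G ρ) {z y u : V} {τ : ℕ} (hzτ : G.b z ≤ τ)
    (hy : G.al y τ) (hab : G.r (host G π z τ) < G.r y) (hu : Orb ρ y u) (huN : G.t u ≤ G.N)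
    (hne : ∀ w, Orb ρ y w → G.t w ≤ G.t u → ¬ Orb π z w) : G.r (host G π z (G.t u)) < G.r u := by
  have hyt : τ ≤ G.t y := hy.2
  have hyu := orb_t hρ hu
  have e1 : host G ρ y τ = y := host_self hρ hyt
  have hui : host G ρ y (G.t u) = u := W_a4f561_B31.host_of_orb hρ hu (by omega)
  by_contra hcon
  rw [not_lt] at hcon
  obtain ⟨τ', k1, k2, k3⟩ := order hπ hρ (u := z) (v := y) (τ1 := τ) (τ2 := G.t u) hzτ hy.1 (by omega) huN
    (by rw [e1]; exact hab) (by rw [hui]; exact hcon)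
  have h1 : Orb π z (host G π z τ') := host_orb G π z τ'
  rw [k3] at h1
  have h2 : Orb ρ y (host G ρ y τ') := host_orb G ρ y τ'
  have h3 : G.t (host G ρ y τ') ≤ G.t u := by
    have h4 := host_add hρ (u := y) (τ := τ') (τ' := G.t u) (hy.1.trans k1.le) k2 huN
    rw [hui] at h4
    have h5 := host_orb G ρ (host G ρ y τ') (G.t u)
    rw [h4] at h5
    exact orb_t hρ h5
  exact hne _ h2 h3 h1

section main

variable {σ0 σ1 σ2 : St V} {z0 w y : V} {s : ℕ} {D0 W Sx A : Set V} {ω0 : V × Bool → Bool}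

/-- HEADS GET IN, pointwise. `σ0`: old state (law of `P_w`), `σ1`: state with the piece (or phase) drawn, `σ2`: after the
declarations of the phase, `A`: the areas, `W`: universe of the new label, `Sx`: earlier labels of this side, `hH`: the
coupling (`W_a4f561_P25.heads`). -/
theorem heads_lv (hc0 : ∀ ω, Ch G (law G σ0 ω)) (hc1 : ∀ ω, Ch G (law G σ1 ω)) (hc2 : ∀ ω, Ch G (law G σ2 ω))
    (hπ : Ch G σ1.pi) (hS : ∀ u, Orb σ1.pi z0 u → G.t u ≤ G.t w → u ∈ σ1.S) (hA : ∀ u ∈ A, u ∉ σ1.S)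
    (hz0 : ∀ u, PD G D0 (law G σ0 ω0) z0 u → G.t u ≤ G.t w → Orb σ1.pi z0 u) (hwN : G.t w ≤ G.N)
    (hH : ∀ ω v, y ∉ σ1.S → Orb (law G σ1 ω) y v → Orb σ1.pi z0 v → G.t v ≤ G.t w →
      (∀ u, Orb (law G σ1 ω) y u → G.t u < G.t v → u ∉ σ1.S) →
      ∃ v', Orb (law G σ2 ω) y v' ∧ Orb σ1.pi z0 v' ∧ G.t v' ≤ G.t v ∧
        ∀ u, Orb (law G σ2 ω) y u → G.t u < G.t v' → (Orb (law G σ1 ω) y u ∧ G.t u < G.t v) ∨ u ∈ A)
    (hag : ∀ u ∈ D0, s < G.t u → ¬ PD G D0 (law G σ0 ω0) z0 u → ∀ ω, law G σ1 ω u = law G σ0 ω u)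
    (hdis : ∀ u ∈ D0, s < G.t u → ¬ PD G D0 (law G σ0 ω0) z0 u → u ∉ σ1.S)
    (hW : ∀ u, u ∉ σ1.S → s < G.t u → G.t u < G.t w → (u ∈ D0 ∨ u ∈ A) →
      G.r (host G σ1.pi z0 (G.t u)) < G.r u → u ∈ W ∨ u ∈ Sx)
    (hd : ∀ u ∈ W, u ∉ σ1.S ∧ u ∉ Sx)
    (hy : s < G.t y) {τ : ℕ} (hτ : G.al y τ) (hτ1 : G.b z0 ≤ τ) (hab : G.r (host G σ1.pi z0 τ) < G.r y)
    (ω : V × Bool → Bool) (h : LV G (D0 \ Bp G σ0 D0 ω0 z0) (Bw G σ0 D0 ω0 z0 w) (law G σ0 ω) y) :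
    LV G W ({u | Orb σ1.pi z0 u ∧ G.t u ≤ G.t w} ∪ Sx) (law G σ2 ω) y := by
  classical
  obtain ⟨e, he, heD, hoe, hb⟩ := h
  have hd' : ∀ u ∈ ({u | Orb σ1.pi z0 u ∧ G.t u ≤ G.t w} ∪ Sx : Set V), u ∉ W := by
    rintro u (h1 | h1) h2
    · exact (hd u h2).1 (hS u h1.1 h1.2)
    · exact (hd u h2).2 h1
  have heo : Orb σ1.pi z0 e := hz0 e he.1 he.2
  have hlate : ∀ u, Orb (law G σ0 ω) y u → s < G.t u := fun u hu => hy.trans_le (orb_t (hc0 ω) hu)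
  have hag' : ∀ u, Orb (law G σ0 ω) y u → G.t u < G.t e → law G σ1 ω u = law G σ0 ω u := by
    intro u h1 h2
    have h3 := hb u h1 h2
    exact hag u h3.1 (hlate u h1) (fun h4 => h3.2 h4) ω
  obtain ⟨ho1, ho2⟩ := orb_agree (hc0 ω) hoe hag'
  by_cases hyS : y ∈ σ1.S
  · -- then `y = e`
    have h1 : y = e := by
      by_contra hcon
      have h2 : G.t y < G.t e := lt_of_le_of_ne (orb_t (hc0 ω) hoe) fun h3 => hcon (G.t_inj h3)
      have h3 := hb y (orb_refl _ _) h2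
      exact hdis y h3.1 hy (fun h4 => h3.2 h4) hyS
    exact lv_of_meet (v := y) hd' (orb_refl _ _) (Or.inl ⟨h1 ▸ heo, by rw [h1]; exact he.2⟩)
      (fun u h2 h3 => by have := orb_t (hc2 ω) h2; omega)
  obtain ⟨v', n1, n2, n3, n4⟩ := hH ω e hyS ho1 heo he.2 (fun u h1 h2 => by
    have h3 := ho2 u h1 h2 (hc1 ω)
    have h4 := hb u h3 h2
    exact hdis u h4.1 (hlate u h3) (fun h5 => h4.2 h5))
  -- the first vertex of the new route on the route of `z0`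
  have hex : ∃ n, ∃ e', Orb (law G σ2 ω) y e' ∧ Orb σ1.pi z0 e' ∧ G.t e' = n := ⟨_, v', n1, n2, rfl⟩
  obtain ⟨e', k1, k2, k3⟩ := Nat.find_spec hex
  have hmin : ∀ u, Orb (law G σ2 ω) y u → Orb σ1.pi z0 u → G.t e' ≤ G.t u := by
    intro u l1 l2
    rw [k3]
    exact Nat.find_min' hex ⟨u, l1, l2, rfl⟩
  have hev : G.t e' ≤ G.t v' := hmin v' n1 n2
  have hew : G.t e' ≤ G.t w := (hev.trans n3).trans he.2
  refine lv_of_meet (v := e') hd' k1 (Or.inl ⟨k2, hew⟩) (fun u h1 h2 => ?_)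
  have hus : s < G.t u := hy.trans_le (orb_t (hc2 ω) h1)
  have h3 : (Orb (law G σ1 ω) y u ∧ G.t u < G.t e) ∨ u ∈ A := n4 u h1 (h2.trans_le hev)
  have huS : u ∉ σ1.S := by
    rcases h3 with ⟨h4, h5⟩ | h4
    · have h6 := ho2 u h4 h5 (hc1 ω)
      have h7 := hb u h6 h5
      exact hdis u h7.1 hus (fun h8 => h7.2 h8)
    · exact hA u h4
  have habu : G.r (host G σ1.pi z0 (G.t u)) < G.r u := by
    refine above_stay hπ (hc2 ω) hτ1 hτ hab h1 ((h2.le.trans hew).trans hwN) (fun u' l1 l2 l3 => ?_)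
    have := hmin u' l1 l3
    omega
  rcases hW u huS hus (h2.trans_le hew) (h3.imp (fun h4 => (hb u (ho2 u h4.1 h4.2 (hc1 ω)) h4.2).1) id) habu with h4 | h4
  · exact Or.inl h4
  · exact Or.inr (Or.inr h4)

/-- HEADS GET IN: `P_w(y)` is at most the probability that the new route leaves `W` in the target. -/
theorem heads_pr [Fintype V] [DecidableEq V] (hc0 : ∀ ω, Ch G (law G σ0 ω)) (hc1 : ∀ ω, Ch G (law G σ1 ω))
    (hc2 : ∀ ω, Ch G (law G σ2 ω))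
    (hπ : Ch G σ1.pi) (hS : ∀ u, Orb σ1.pi z0 u → G.t u ≤ G.t w → u ∈ σ1.S) (hA : ∀ u ∈ A, u ∉ σ1.S)
    (hz0 : ∀ u, PD G D0 (law G σ0 ω0) z0 u → G.t u ≤ G.t w → Orb σ1.pi z0 u) (hwN : G.t w ≤ G.N)
    (hH : ∀ ω v, y ∉ σ1.S → Orb (law G σ1 ω) y v → Orb σ1.pi z0 v → G.t v ≤ G.t w →
      (∀ u, Orb (law G σ1 ω) y u → G.t u < G.t v → u ∉ σ1.S) →
      ∃ v', Orb (law G σ2 ω) y v' ∧ Orb σ1.pi z0 v' ∧ G.t v' ≤ G.t v ∧
        ∀ u, Orb (law G σ2 ω) y u → G.t u < G.t v' → (Orb (law G σ1 ω) y u ∧ G.t u < G.t v) ∨ u ∈ A)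
    (hag : ∀ u ∈ D0, s < G.t u → ¬ PD G D0 (law G σ0 ω0) z0 u → ∀ ω, law G σ1 ω u = law G σ0 ω u)
    (hdis : ∀ u ∈ D0, s < G.t u → ¬ PD G D0 (law G σ0 ω0) z0 u → u ∉ σ1.S)
    (hW : ∀ u, u ∉ σ1.S → s < G.t u → G.t u < G.t w → (u ∈ D0 ∨ u ∈ A) →
      G.r (host G σ1.pi z0 (G.t u)) < G.r u → u ∈ W ∨ u ∈ Sx)
    (hd : ∀ u ∈ W, u ∉ σ1.S ∧ u ∉ Sx)
    (hy : s < G.t y) {τ : ℕ} (hτ : G.al y τ) (hτ1 : G.b z0 ≤ τ) (hab : G.r (host G σ1.pi z0 τ) < G.r y) :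
    Pw G σ0 D0 ω0 z0 w y ≤
      pr (fun _ => none) (fun ω => LV G W ({u | Orb σ1.pi z0 u ∧ G.t u ≤ G.t w} ∪ Sx) (law G σ2 ω) y) :=
  pr_mono31 fun ω h => heads_lv hc0 hc1 hc2 hπ hS hA hz0 hwN hH hag hdis hW hd hy hτ hτ1 hab ω h

end main

/-! ### Heads of events are above the phase -/

/-- A head of the event at `v`: alive and above the phase at a time after `t v`, at which the host is `lo v`. -/
theorem head_above {π : V → V} (hπ : Ch G π) {z v h : V} {k : Bool} (hv : G.inn v) (hx : G.inn (G.lo v))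
    (hzv : Orb π z v) (hπv : π v = G.lo v) (hh : HdK G k v h) :
    ∃ τ, G.t v < τ ∧ τ ≤ G.t (G.lo v) ∧ G.al h τ ∧ host G π z τ = G.lo v ∧ G.r (host G π z τ) < G.r h ∧
      G.t v < G.t h := by
  obtain ⟨h1, h2, h3, h4, h5, h6⟩ := tau1_spec G hv hx
  have htx : G.t (G.lo v) < G.N := W_a4f561_B31.t_lt_of_inn G hx
  have key : ∀ τ, G.t v < τ → τ ≤ G.t (G.lo v) → h = G.ub (G.lo v) τ →
      ∃ τ, G.t v < τ ∧ τ ≤ G.t (G.lo v) ∧ G.al h τ ∧ host G π z τ = G.lo v ∧ G.r (host G π z τ) < G.r h ∧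
        G.t v < G.t h := by
    intro τ k1 k2 k3
    obtain ⟨m1, m2, _⟩ := ub_spec G (x := G.lo v) (τ := τ) (by omega) hx.2
    have e : host G π z τ = G.lo v := by
      rw [← hπv]
      exact host_btw hπ hzv k1 (by rw [hπv]; exact k2) (by omega)
    refine ⟨τ, k1, k2, by rw [k3]; exact m1, e, by rw [e, k3]; exact m2, ?_⟩
    rw [k3]
    exact k1.trans_le m1.2
  cases k with
  | true =>
    unfold HdK at hh
    rw [if_pos rfl] at hh
    obtain ⟨τ, k1, k2, k3⟩ := hh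
    exact key τ k1 (k2.le.trans h2) k3
  | false =>
    unfold HdK at hh
    rw [if_neg (by decide)] at hh
    exact key (G.tau1 v) h1 h2 hh

end Pool.Agent.W_a4f561_P31
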