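import Pool.Agent.W_a4f561_P31.HeadsIn
import Pool.Agent.W_a4f561_h33.Rel33
import Pool.Agent.W_a4f561_P25.CoupW
import Pool.Agent.W_a4f561_P97.NewL97
import Pool.Agent.W_a4f561_h1.Def

/-!
MP_a4f561_co, polylog (helper1's text, section 3 (d), HEADS GET IN) on `W_a4f561_h1.Def`: the coupling from `RelH`, the
inequality for the heads of an event and `head_in`: a head of a `Dl`-event is on the phase up to the deadline, in an
earlier label or in the new label.
-/

set_option autoImplicit false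

namespace Pool.Agent.W_a4f561_P31

open Pool.Agent.W_a4f561_h26
open Pool.Agent.W_a4f561_P73
open Pool.Agent.W_a4f561_P25 (Tc Ar ArD Area)
open Pool.Agent.W_a4f561_h33 (RelH)
open Pool.Agent.W_a4f561_h1 (IsRc WInv Hd Exi TD Pk Ob Dl Dr1)

variable {V : Type} {G : Bars V}

/-! ### Coupling of the laws before and after the declaration -/

theorem orb_cases31 {π : V → V} {u w : V} (h : Orb π u w) : w = u ∨ Orb π (π u) w := by
  obtain ⟨k, rfl⟩ := h
  rcases k with _ | k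
  · exact Or.inl rfl
  · exact Or.inr ⟨k, (Function.iterate_succ_apply π k u).symm⟩

theorem orb_cons31 {π : V → V} {u w : V} (h : Orb π (π u) w) : Orb π u w := by
  obtain ⟨k, rfl⟩ := h
  exact ⟨k + 1, Function.iterate_succ_apply π k u⟩

section rel

variable {σ σ' : St V} {z : V} {tl : ℕ}

theorem relH_mir (h : RelH G σ σ' z tl) : RelH G.mir σ σ' z tl where
  bot := h.top
  top := h.bot
  ch := ch_mir.2 h.ch
  S := h.S
  sub := h.sub
  pi := h.pi
  new := fun u h1 h2 h3 => W_a4f561_P25.Area.mir_iff.2 (h.new u h1 h2 h3)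
  ph := h.ph
  tN := h.tN
  decD := fun y a c u h1 h2 => by
    obtain ⟨h3, h4⟩ := h.decU y a c u h1 h2
    exact ⟨h3, by rw [h4, mir_lo']⟩
  decU := fun y a c u h1 h2 => by
    rw [mir_mir] at h1
    rw [mir_lo'] at h2
    obtain ⟨h3, h4⟩ := h.decD y a c u h1 h2
    exact ⟨h3, by rw [h4]; rfl⟩
  out := fun u h1 => h.out u (W_a4f561_P25.Area.mir_iff.1 h1)

/-- (P2): the route of an area vertex stays in the area until it meets the phase, in time. -/
theorem meet_rel (h : RelH G σ σ' z tl) {ρ : V → V} (hρ : Fin' G σ' ρ) {y : V} {a c : ℕ} :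
    ∀ (n : ℕ) (w : V), c - G.t w ≤ n → Ar G σ.pi z tl y a c w →
    ∃ v', Orb ρ w v' ∧ Orb σ.pi z v' ∧ G.t v' ≤ G.t (host G σ.pi z c) ∧
      ∀ w', Orb ρ w w' → G.t w' < G.t v' → Ar G σ.pi z tl y a c w' := by
  intro n
  induction n with
  | zero =>
    intro w hn hw
    obtain ⟨hac, k1, k2, k3⟩ := hw.p0 h.ch h.tN
    omega
  | succ n ih =>
    intro w hn hw
    obtain ⟨hac, k1, k2, k3⟩ := hw.p0 h.ch h.tN
    have hin : G.inn w := h.inn (h.out w (Or.inl ⟨y, a, c, hw⟩))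
    have hts := W_a4f561_B31.ch_t_lt hρ.1 hin
    rcases hw.fwd h.ch h.tN hρ.1 (h.neD hw hρ) with h1 | h1
    · obtain ⟨_, _, m2, _⟩ := h1.p0 h.ch h.tN
      obtain ⟨v', n1, n2, n3, n4⟩ := ih (ρ w) (by omega) h1
      refine ⟨v', orb_cons31 n1, n2, n3, fun w' l1 l2 => ?_⟩
      rcases orb_cases31 l1 with l3 | l3
      · rw [l3]
        exact hw
      · exact n4 w' l3 l2
    · refine ⟨ρ w, orb_step (orb_refl ρ w), h1.1, h1.2, fun w' l1 l2 => ?_⟩
      rcases orb_cases31 l1 with l3 | l3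
      · rw [l3]
        exact hw
      · exfalso
        have := orb_t hρ.1 l3
        omega

/-- The case that the two routes part in an area above the phase. -/
theorem part_rel (h : RelH G σ σ' z tl) {ρ ρ1 : V → V} (hρ : Fin' G σ ρ) (hρ1 : Fin' G σ' ρ1) {u0 v : V} {a c : ℕ}
    (hA : Ar G σ.pi z tl (G.up u0) a c u0) (hd : u0 ∈ σ'.Dec) (hlo : σ'.pi u0 = G.lo u0) (hne : ρ1 u0 ≠ ρ u0)
    (hv : Orb ρ (ρ u0) v) (hz : Orb σ.pi z v) :
    ∃ v', Orb ρ1 u0 v' ∧ Orb σ.pi z v' ∧ G.t v' ≤ G.t v ∧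
      ∀ w, Orb ρ1 u0 w → G.t w < G.t v' → Area G σ.pi z tl w := by
  obtain ⟨hac, k1, k2, k3⟩ := hA.p0 h.ch h.tN
  have hcN : c ≤ G.N := hA.2.2.1.2.1.trans h.tN
  have hin : G.inn u0 := h.inn (h.out u0 (Or.inl ⟨_, a, c, hA⟩))
  have h1 : ρ1 u0 = G.lo u0 := by rw [hρ1.2 u0 (Or.inr hd), hlo]
  have h2 : ρ u0 = G.up u0 := by
    rcases hρ.1.2.2 u0 hin with h3 | h3
    · exact absurd (h1.trans h3.symm) hne
    · exact h3
  have h3 : c < G.t (G.up u0) := hA.2.2.1.y_t h.ch h.tN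
  have h4 : G.t (G.up u0) ≤ G.t v := by
    rw [← h2]
    exact orb_t hρ.1 hv
  obtain ⟨v', n1, n2, n3, n4⟩ := meet_rel h hρ1 _ u0 le_rfl hA
  refine ⟨v', n1, n2, n3.trans ?_, fun w l1 l2 => Or.inl ⟨_, a, c, n4 w l1 l2⟩⟩
  exact W_a4f561_P25.W.host_first h.ch hz (by omega) hcN

/-- The refined description of the new declared vertices. -/
def NewDec (G : Bars V) (σ σ' : St V) (z : V) (tl : ℕ) : Prop :=
  ∀ u ∈ σ'.Dec, u ∉ σ.S → u ∉ σ.Dec →
    (∃ a c, Ar G σ.pi z tl (G.up u) a c u ∧ σ'.pi u = G.lo u) ∨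
      ∃ a c, Ar G.mir σ.pi z tl (G.lo u) a c u ∧ σ'.pi u = G.up u

/-- HEADS GET IN, coupling (pointwise): if the old route of `u0` meets the phase in `v` (and is outside of `S` before),
the new route meets the phase not later; before it is on the old route or in an area. -/
theorem heads_rel (h : RelH G σ σ' z tl) (hch' : Ch G σ'.pi) (hnew : NewDec G σ σ' z tl) (ω : V × Bool → Bool) {v : V}
    (hz : Orb σ.pi z v) (hvS : v ∈ σ.S) :
    ∀ (k : ℕ) (u0 : V), (law G σ ω)^[k] u0 = v → u0 ∉ σ.S →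
    (∀ w, Orb (law G σ ω) u0 w → G.t w < G.t v → w ∉ σ.S) →
    ∃ v', Orb (law G σ' ω) u0 v' ∧ Orb σ.pi z v' ∧ G.t v' ≤ G.t v ∧
      ∀ w, Orb (law G σ' ω) u0 w → G.t w < G.t v' →
        (Orb (law G σ ω) u0 w ∧ G.t w < G.t v) ∨ Area G σ.pi z tl w := by
  have hf : Fin' G σ (law G σ ω) := fin_law31 (fun ω => ch_law31 h.bot h.top h.ch ω) ω
  have hf1 : Fin' G σ' (law G σ' ω) :=
    fin_law31 (fun ω => ch_law31 (by rw [h.S]; exact h.bot) (by rw [h.S]; exact h.top) hch' ω) ω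
  have hch := hf.1
  have hS' : σ'.S = σ.S := h.S
  have hag : ∀ u, u ∉ σ.S → (u ∈ σ'.Dec → u ∈ σ.Dec) → law G σ' ω u = law G σ ω u := by
    intro u h1 h2
    by_cases h3 : u ∈ σ.S ∪ σ.Dec
    · unfold law
      rw [if_pos h3, if_pos (show u ∈ σ'.S ∪ σ'.Dec by
        rw [hS']
        exact h3.imp id fun h4 => h.sub h4)]
      exact h.pi u h3
    · have h4 : u ∉ σ'.S ∪ σ'.Dec := by
        rw [hS']
        rintro (h5 | h5)
        · exact h1 h5
        · exact h3 (Or.inr (h2 h5))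
      unfold law
      rw [if_neg h3, if_neg h4]
  intro k
  induction k with
  | zero =>
    intro u0 hk hu _
    exfalso
    have : u0 = v := hk
    rw [this] at hu
    exact hu hvS
  | succ k ih =>
    intro u0 hk hu hav
    have hk' : (law G σ ω)^[k] (law G σ ω u0) = v := by
      rw [← Function.iterate_succ_apply]
      exact hk
    have hin : G.inn u0 := h.inn hu
    have ht := W_a4f561_B31.ch_t_lt hch hin
    have hle : G.t (law G σ ω u0) ≤ G.t v := orb_t hch ⟨k, hk'⟩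
    by_cases hne : law G σ' ω u0 = law G σ ω u0
    · by_cases hS : law G σ ω u0 ∈ σ.S
      · have he : law G σ ω u0 = v := by
          by_contra hcon
          have h1 : G.t (law G σ ω u0) < G.t v := lt_of_le_of_ne hle fun e => hcon (G.t_inj e)
          exact hav _ (orb_step (orb_refl _ u0)) h1 hS
        refine ⟨v, ?_, hz, le_rfl, fun w l1 l2 => ?_⟩
        · rw [← he, ← hne]
          exact orb_step (orb_refl _ u0)
        · rcases orb_cases31 l1 with l3 | l3
          · rw [l3]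
            exact Or.inl ⟨orb_refl _ _, ht.trans_le hle⟩
          · exfalso
            have l4 := orb_t hf1.1 l3
            rw [hne, he] at l4
            omega
      · obtain ⟨v', n1, n2, n3, n4⟩ := ih _ hk' hS (fun w l1 l2 => hav w (orb_cons31 l1) l2)
        refine ⟨v', orb_cons31 (by rw [hne]; exact n1), n2, n3, fun w l1 l2 => ?_⟩
        rcases orb_cases31 l1 with l3 | l3
        · rw [l3]
          exact Or.inl ⟨orb_refl _ _, ht.trans_le hle⟩
        · rw [hne] at l3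
          rcases n4 w l3 l2 with l4 | l4
          · exact Or.inl ⟨orb_cons31 l4.1, l4.2⟩
          · exact Or.inr l4
    · have hD1 : u0 ∈ σ'.Dec := by
        by_contra h1
        exact hne (hag u0 hu fun h2 => absurd h2 h1)
      have hD2 : u0 ∉ σ.Dec := fun h1 => hne (hag u0 hu fun _ => h1)
      rcases hnew u0 hD1 hu hD2 with ⟨a, c, h1, h2⟩ | ⟨a, c, h1, h2⟩
      · obtain ⟨v', n1, n2, n3, n4⟩ := part_rel h hf hf1 h1 hD1 h2 hne ⟨k, hk'⟩ hz
        exact ⟨v', n1, n2, n3, fun w l1 l2 => Or.inr (n4 w l1 l2)⟩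
      · have hf' : Fin' G.mir σ (law G σ ω) := ⟨ch_mir.2 hf.1, hf.2⟩
        have hf1' : Fin' G.mir σ' (law G σ' ω) := ⟨ch_mir.2 hf1.1, hf1.2⟩
        obtain ⟨v', n1, n2, n3, n4⟩ := part_rel (G := G.mir) (relH_mir h) hf' hf1' (a := a) (c := c)
          (by rw [mir_up']; exact h1) hD1 (by rw [mir_lo']; exact h2) hne ⟨k, hk'⟩ hz
        exact ⟨v', n1, n2, n3, fun w l1 l2 => Or.inr (W_a4f561_P25.Area.mir_iff.1 (n4 w l1 l2))⟩

end rel

end Pool.Agent.W_a4f561_P31
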